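import Mathlib

set_option autoImplicit false
set_option linter.unusedSectionVars false

open Finset

noncomputable section

namespace Pool.Agent.H145Z.Foc

variable {ι : Type} [Fintype ι] [DecidableEq ι]

/-- average over the subsets of size `k` -/
def Av (k : ℕ) (f : Finset ι → ℝ) : ℝ :=
  (∑ S ∈ powersetCard k univ, f S) / (Fintype.card ι).choose k

def Dn (f : Finset ι → ℝ) (S : Finset ι) : ℝ := (∑ i ∈ S, f (S.erase i)) / S.card

lemma Av_mono {k : ℕ} {f g : Finset ι → ℝ} (h : ∀ S : Finset ι, S.card = k → f S ≤ g S) :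
    Av k f ≤ Av k g :=
  div_le_div_of_nonneg_right (sum_le_sum fun S hS => h S (mem_powersetCard.1 hS).2)
    (Nat.cast_nonneg _)

lemma Av_const {k : ℕ} (hk : k ≤ Fintype.card ι) (c : ℝ) : Av k (fun _ : Finset ι => c) = c := by
  have : (0 : ℝ) < (Fintype.card ι).choose k := by exact_mod_cast Nat.choose_pos hk
  rw [Av, sum_const, card_powersetCard, card_univ, nsmul_eq_mul]
  field_simp

lemma Av_add (k : ℕ) (f g : Finset ι → ℝ) : Av k (fun S => f S + g S) = Av k f + Av k g := by
  rw [Av, sum_add_distrib, add_div]; rfl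

lemma Av_mul (k : ℕ) (f : Finset ι → ℝ) (c : ℝ) : Av k (fun S => f S * c) = Av k f * c := by
  rw [Av, ← sum_mul, Av]; ring

lemma Av_compl {k : ℕ} (hk : k ≤ Fintype.card ι) (f : Finset ι → ℝ) :
    Av k (fun S => f Sᶜ) = Av (Fintype.card ι - k) f := by
  rw [Av, Av, Nat.choose_symm hk]
  congr 1
  refine sum_nbij' (fun S => Sᶜ) (fun S => Sᶜ) (fun S hS => ?_) (fun S hS => ?_) (by simp) (by simp)
    (by simp)
  · simp only [mem_powersetCard, subset_univ, true_and, card_compl] at hS ⊢
    omega
  · simp only [mem_powersetCard, subset_univ, true_and, card_compl] at hS ⊢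
    omega

lemma Av_Dn {k : ℕ} (hk : k < Fintype.card ι) (f : Finset ι → ℝ) : Av k f = Av (k + 1) (Dn f) := by
  have h1 : ∑ S ∈ powersetCard (k + 1) univ, ∑ i ∈ S, f (S.erase i) =
      ∑ S ∈ powersetCard k univ, ∑ _i ∈ Sᶜ, f S := by
    rw [sum_sigma', sum_sigma']
    refine sum_nbij' (fun p => ⟨p.1.erase p.2, p.2⟩) (fun p => ⟨insert p.2 p.1, p.2⟩)
      (fun p hp => ?_) (fun p hp => ?_) (fun p hp => ?_) (fun p hp => ?_) (fun p _ => rfl)
    · simp only [mem_sigma, mem_powersetCard, subset_univ, true_and] at hp ⊢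
      simp [card_erase_of_mem hp.2, hp.1]
    · simp only [mem_sigma, mem_powersetCard, subset_univ, true_and, mem_compl] at hp ⊢
      simp [card_insert_of_notMem hp.2, hp.1]
    · simp only [mem_sigma] at hp
      simp [insert_erase hp.2]
    · simp only [mem_sigma, mem_compl] at hp
      simp [erase_insert hp.2]
  have h2 : ∑ S ∈ powersetCard k univ, ∑ _i ∈ Sᶜ, f S =
      (Fintype.card ι - k : ℕ) * ∑ S ∈ powersetCard k univ, f S := by
    rw [mul_sum]
    refine sum_congr rfl fun S hS => ?_
    rw [sum_const, card_compl, (mem_powersetCard.1 hS).2, nsmul_eq_mul]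
  have h3 : ∑ S ∈ powersetCard (k + 1) univ, Dn f S =
      (∑ S ∈ powersetCard (k + 1) univ, ∑ i ∈ S, f (S.erase i)) / (k + 1 : ℕ) := by
    rw [sum_div]
    exact sum_congr rfl fun S hS => by rw [Dn, (mem_powersetCard.1 hS).2]
  have h4 : ((Fintype.card ι).choose (k + 1) : ℝ) * (k + 1 : ℕ) =
      (Fintype.card ι).choose k * (Fintype.card ι - k : ℕ) := by
    exact_mod_cast Nat.choose_succ_right_eq _ _
  have h5 : (0 : ℝ) < (Fintype.card ι).choose k := by exact_mod_cast Nat.choose_pos hk.le
  have h6 : (0 : ℝ) < (Fintype.card ι - k : ℕ) := by exact_mod_cast Nat.sub_pos_of_lt hk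
  rw [Av, Av, h3, h1, h2, div_div, mul_comm ((k + 1 : ℕ) : ℝ), h4]
  field_simp

def Agree (S : Finset ι) (x y : ι → Bool) : Prop := ∀ i ∈ S, x i = y i

instance (S : Finset ι) (x y : ι → Bool) : Decidable (Agree S x y) :=
  inferInstanceAs (Decidable (∀ i ∈ S, x i = y i))

lemma card_agree (S : Finset ι) (x : ι → Bool) :
    (univ.filter fun w => Agree S x w).card = 2 ^ (Fintype.card ι - S.card) := by
  have : (univ.filter fun w => Agree S x w) =
      Fintype.piFinset fun i => if i ∈ S then {x i} else univ := by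
    ext w
    rw [mem_filter, Fintype.mem_piFinset]
    simp only [mem_univ, true_and]
    refine forall_congr' fun i => ?_
    by_cases hi : i ∈ S
    · rw [if_pos hi, mem_singleton]
      exact ⟨fun h => (h hi).symm, fun h _ => h.symm⟩
    · simp [hi]
  rw [this, Fintype.card_piFinset, ← card_compl, ← prod_const, ← prod_filter_mul_prod_filter_not
    univ (fun i => i ∈ S), prod_eq_one fun i hi => by simp [(mem_filter.1 hi).2], one_mul]
  refine prod_congr (by ext; simp) fun i hi => ?_
  simp [mem_compl.1 hi]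

variable (F : Finset (ι → Bool))

/-- the members determined by their restriction to `S` -/
def uq (S : Finset ι) : Finset (ι → Bool) := F.filter fun x => ∀ y ∈ F, Agree S x y → y = x

/-- the points whose subcube meets `G` -/
def sat (G : Finset (ι → Bool)) (S : Finset ι) : Finset (ι → Bool) :=
  univ.filter fun w => ∃ x ∈ G, Agree S x w

lemma card_sat_le (G : Finset (ι → Bool)) (S : Finset ι) :
    (sat G S).card ≤ G.card * 2 ^ (Fintype.card ι - S.card) := by
  have : sat G S = G.biUnion fun x => univ.filter fun w => Agree S x w := by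
    ext w; simp [sat]
  rw [this]
  exact card_biUnion_le_card_mul _ _ _ fun x _ => (card_agree S x).le

lemma card_sat_uq (S : Finset ι) :
    (sat (uq F S) S).card = (uq F S).card * 2 ^ (Fintype.card ι - S.card) := by
  have : sat (uq F S) S = (uq F S).biUnion fun x => univ.filter fun w => Agree S x w := by
    ext w; simp [sat]
  rw [this, card_biUnion, sum_congr rfl fun x _ => card_agree S x, sum_const, smul_eq_mul]
  intro x hx y hy hxy
  refine disjoint_left.2 fun w h1 h2 => hxy ?_
  simp only [coe_filter, uq, Set.mem_ofPred_eq, mem_filter] at hx hy h1 h2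
  exact (hx.2 y hy.1 fun i hi => (h1.2 i hi).trans (h2.2 i hi).symm).symm

lemma uq_le (S : Finset ι) : (uq F S).card ≤ 2 ^ S.card := by
  have h1 := card_le_univ (sat (uq F S) S)
  rw [card_sat_uq, Fintype.card_fun, Fintype.card_bool,
    ← Nat.add_sub_cancel' (card_le_univ S), Nat.add_sub_cancel_left, pow_add] at h1
  exact Nat.le_of_mul_le_mul_right h1 (by positivity)

def fl (i : ι) (w : ι → Bool) : ι → Bool := Function.update w i (!w i)

lemma fl_fl (i : ι) (w : ι → Bool) : fl i (fl i w) = w := by simp [fl]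

lemma fl_ne {i j : ι} (h : j ≠ i) (w : ι → Bool) : fl i w j = w j := by simp [fl, h]

lemma card_fl (i : ι) (p : (ι → Bool) → Prop) [DecidablePred p] :
    (univ.filter fun w => p (fl i w)).card = (univ.filter p).card :=
  card_nbij' (fl i) (fl i) (fun w hw => by simpa using hw) (fun w hw => by simpa [fl_fl] using hw)
    (fun w _ => fl_fl i w) (fun w _ => fl_fl i w)

lemma kraft_step {S : Finset ι} {i : ι} (hi : i ∈ S) :
    2 * (sat F S).card + (sat (uq F (S.erase i)) (S.erase i)).card ≤
      2 * (sat F (S.erase i)).card := by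
  have h1 := card_fl i fun w => ∃ x ∈ F, Agree S x w
  rw [two_mul, two_mul]
  nth_rewrite 1 [sat, ← h1]
  simp only [sat, card_filter, ← sum_add_distrib]
  refine sum_le_sum fun w _ => ?_
  have a1 : (∃ x ∈ F, Agree S x w) → ∃ x ∈ F, Agree (S.erase i) x w :=
    fun ⟨x, h, h'⟩ => ⟨x, h, fun j hj => h' j (mem_of_mem_erase hj)⟩
  have a2 : (∃ x ∈ F, Agree S x (fl i w)) → ∃ x ∈ F, Agree (S.erase i) x w :=
    fun ⟨x, h, h'⟩ => ⟨x, h, fun j hj => (h' j (mem_of_mem_erase hj)).trans
      (fl_ne (ne_of_mem_erase hj) w)⟩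
  have a3 : (∃ x ∈ uq F (S.erase i), Agree (S.erase i) x w) → ∃ x ∈ F, Agree (S.erase i) x w :=
    fun ⟨x, h, h'⟩ => ⟨x, (mem_filter.1 h).1, h'⟩
  have a4 : (∃ x ∈ uq F (S.erase i), Agree (S.erase i) x w) → (∃ x ∈ F, Agree S x w) →
      ¬ ∃ x ∈ F, Agree S x (fl i w) := by
    rintro ⟨x, h, h'⟩ ⟨y, hy, hy'⟩ ⟨z, hz, hz'⟩
    have e1 := (mem_filter.1 h).2 y hy fun j hj => (h' j hj).trans (hy' j (mem_of_mem_erase hj)).symm
    have e2 := (mem_filter.1 h).2 z hz fun j hj => (h' j hj).trans
      ((hz' j (mem_of_mem_erase hj)).trans (fl_ne (ne_of_mem_erase hj) w)).symm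
    have e3 := (hy' i hi).symm.trans ((congrFun (e1.trans e2.symm) i).trans (hz' i hi))
    simp [fl] at e3
  by_cases p0 : ∃ x ∈ F, Agree (S.erase i) x w
  · rw [if_pos p0]
    by_cases p3 : ∃ x ∈ uq F (S.erase i), Agree (S.erase i) x w
    · by_cases p1 : ∃ x ∈ F, Agree S x w
      · rw [if_neg (a4 p3 p1)]; split_ifs <;> omega
      · rw [if_neg p1]; split_ifs <;> omega
    · rw [if_neg p3]; split_ifs <;> omega
  · rw [if_neg (mt a1 p0), if_neg (mt a2 p0), if_neg (mt a3 p0)]
    omega

lemma kraft (a L : ℕ) (h : a + L ≤ Fintype.card ι) :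
    ∑ k ∈ range L, Av (a + k) (fun S => ((uq F S).card : ℝ)) * 2 ^ (Fintype.card ι - (a + k)) ≤
      2 * 2 ^ Fintype.card ι := by
  have key : ∀ L, a + L ≤ Fintype.card ι → 2 * Av (a + L) (fun S => ((sat F S).card : ℝ)) +
      ∑ k ∈ range L, Av (a + k) (fun S => ((uq F S).card : ℝ)) * 2 ^ (Fintype.card ι - (a + k)) ≤
      2 * 2 ^ Fintype.card ι := by
    intro L
    induction L with
    | zero =>
      intro h
      have := (Av_mono (f := fun S => ((sat F S).card : ℝ))
        (g := fun _ => (2 : ℝ) ^ Fintype.card ι) fun S _ => by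
          have h1 := card_le_univ (sat F S)
          rw [Fintype.card_fun, Fintype.card_bool] at h1
          exact_mod_cast h1).trans (Av_const h _).le
      simpa using this
    | succ L ih =>
      intro h
      have h1 : Av (a + (L + 1)) (fun S => ((sat F S).card : ℝ) * 2) ≤
          Av (a + L) fun S => ((sat F S).card : ℝ) * 2 +
            (uq F S).card * -2 ^ (Fintype.card ι - (a + L)) := by
        rw [Av_Dn (k := a + L) (by omega)]
        refine Av_mono fun S hS => ?_
        have hS0 : (0 : ℝ) < S.card := by rw [hS]; positivity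
        rw [Dn, le_div_iff₀' hS0, ← nsmul_eq_mul, ← sum_const]
        refine sum_le_sum fun i hi => ?_
        have h2 := kraft_step F hi
        rw [card_sat_uq, card_erase_of_mem hi, hS] at h2
        have h3 : (2 * (sat F S).card + (uq F (S.erase i)).card * 2 ^ (Fintype.card ι - (a + L)) : ℝ)
            ≤ 2 * (sat F (S.erase i)).card := by exact_mod_cast h2
        linarith
      rw [Av_add, Av_mul, Av_mul, Av_mul] at h1
      rw [sum_range_succ]
      linarith [ih (by omega)]
  have h1 : 0 ≤ Av (a + L) (fun S => ((sat F S).card : ℝ)) :=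
    div_nonneg (sum_nonneg fun _ _ => Nat.cast_nonneg _) (Nat.cast_nonneg _)
  linarith [key L h]

lemma uq_mono {S T : Finset ι} (h : S ⊆ T) : uq F S ⊆ uq F T := fun _ hx =>
  mem_filter.2 ⟨(mem_filter.1 hx).1, fun y hy hxy => (mem_filter.1 hx).2 y hy
    fun i hi => hxy i (h hi)⟩

lemma dist_two (S : Finset ι) (hN : F.card ≤ 2 ^ S.card) :
    (S.card : ℝ) ^ 2 * F.card ^ 2 / 2 ^ (S.card + 2) - S.card * F.card ≤
      ∑ i ∈ S, ∑ j ∈ S.erase i, ((F.card : ℝ) - (uq F ((S.erase i).erase j)).card) := by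
  set M := S.card with hM
  set c : ℝ := 2 ^ (Fintype.card ι - M) with hc
  have hc0 : 0 < c := by positivity
  have hcM : (2 : ℝ) ^ M * c = 2 ^ Fintype.card ι := by
    rw [hc, ← pow_add, Nat.add_sub_cancel' (card_le_univ S)]
  have hNR : (F.card : ℝ) ≤ 2 ^ M := by exact_mod_cast hN
  have hM0 : (0 : ℝ) ≤ M := Nat.cast_nonneg _
  have hF0 : (0 : ℝ) ≤ F.card := Nat.cast_nonneg _
  by_cases ha : ((uq F S).card : ℝ) ≤ F.card / 2
  · have h1 : ∑ i ∈ S, ∑ _j ∈ S.erase i, (F.card : ℝ) / 2 ≤
        ∑ i ∈ S, ∑ j ∈ S.erase i, ((F.card : ℝ) - (uq F ((S.erase i).erase j)).card) :=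
      sum_le_sum fun i _ => sum_le_sum fun j _ => by
        have : ((uq F ((S.erase i).erase j)).card : ℝ) ≤ (uq F S).card := by
          exact_mod_cast card_le_card (uq_mono F ((erase_subset _ _).trans (erase_subset _ _)))
        linarith
    have h2 : ∑ i ∈ S, ∑ _j ∈ S.erase i, (F.card : ℝ) / 2 = M * ((M - 1) * (F.card / 2)) := by
      rw [← nsmul_eq_mul, ← sum_const]
      refine sum_congr rfl fun i hi => ?_
      rw [sum_const, card_erase_of_mem hi, nsmul_eq_mul, Nat.cast_pred (card_pos.2 ⟨i, hi⟩)]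
    have h3 : (M : ℝ) ^ 2 * F.card ^ 2 / 2 ^ (M + 2) ≤ M ^ 2 * F.card / 4 := by
      rw [div_le_div_iff₀ (by positivity) (by norm_num), pow_add]
      nlinarith [mul_le_mul_of_nonneg_left hNR (mul_nonneg (sq_nonneg (M : ℝ)) hF0)]
    nlinarith [mul_nonneg hM0 hF0, mul_nonneg (sq_nonneg (M : ℝ)) hF0]
  · set G := sat F S with hG
    have t1 : (uq F S).card * c ≤ G.card := by
      have : (sat (uq F S) S).card ≤ G.card := card_le_card fun w hw => by
        simp only [hG, sat, mem_filter, mem_univ, true_and] at hw ⊢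
        exact hw.imp fun x hx => ⟨(mem_filter.1 hx.1).1, hx.2⟩
      rw [card_sat_uq] at this
      rw [hc]
      exact_mod_cast this
    have t2 : (G.card : ℝ) ≤ F.card * c := by rw [hc]; exact_mod_cast card_sat_le F S
    have d1 : ∀ i, ∑ w, (if fl i w ∈ G then (1 : ℝ) else 0) = G.card := fun i => by
      rw [sum_boole, card_fl i (fun w => w ∈ G)]; simp
    have d2 := sq_sum_le_card_mul_sum_sq (s := univ)
      (f := fun w => ∑ i ∈ S, if fl i w ∈ G then (1 : ℝ) else 0)
    rw [sum_comm, sum_congr rfl fun i _ => d1 i, sum_const, nsmul_eq_mul, card_univ,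
      Fintype.card_fun, Fintype.card_bool, Nat.cast_pow, Nat.cast_ofNat, ← hcM, ← hM] at d2
    have d3 : ∑ w, (∑ i ∈ S, if fl i w ∈ G then (1 : ℝ) else 0) ^ 2 ≤ M * G.card +
        (∑ i ∈ S, ∑ j ∈ S.erase i, ((F.card : ℝ) - (uq F ((S.erase i).erase j)).card)) * c := by
      simp only [sq, sum_mul_sum]
      rw [sum_comm, sum_mul, ← nsmul_eq_mul, ← sum_const, ← sum_add_distrib]
      refine sum_le_sum fun i hi => ?_
      rw [sum_comm, ← add_sum_erase _ _ hi, sum_mul]
      refine add_le_add (le_of_eq ?_) (sum_le_sum fun j hj => ?_)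
      · rw [← d1 i]
        exact sum_congr rfl fun w _ => by split_ifs <;> simp
      · have e1 := card_sat_le (F \ uq F ((S.erase i).erase j)) S
        have hs : uq F ((S.erase i).erase j) ⊆ F := filter_subset _ _
        rw [card_sdiff_of_subset hs, sat, ← card_fl i] at e1
        have e2 : (((F.card - (uq F ((S.erase i).erase j)).card) * 2 ^ (Fintype.card ι - M) : ℕ) : ℝ)
            = ((F.card : ℝ) - (uq F ((S.erase i).erase j)).card) * c := by
          rw [Nat.cast_mul, Nat.cast_sub (card_le_card hs)]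
          simp [hc]
        rw [← e2]
        refine le_trans ?_ (Nat.cast_le.2 e1)
        rw [card_filter, Nat.cast_sum]
        refine sum_le_sum fun w _ => ?_
        by_cases h1 : fl i w ∈ G
        · by_cases h2 : fl j w ∈ G
          · rw [if_pos h1, if_pos h2, if_pos]
            · simp
            simp only [hG, sat, mem_filter, mem_univ, true_and] at h1 h2 ⊢
            obtain ⟨x, hx, hx'⟩ := h1
            obtain ⟨y, hy, hy'⟩ := h2
            refine ⟨x, mem_sdiff.2 ⟨hx, fun hu => ?_⟩, hx'⟩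
            have e3 := (mem_filter.1 hu).2 y hy fun l hl => by
              have l1 := mem_erase.1 hl
              have l2 := mem_erase.1 l1.2
              rw [hx' l l2.2, hy' l l2.2, fl_ne l1.1, fl_ne l2.1]
            have e4 := (hx' i hi).symm.trans ((congrFun e3 i).symm.trans (hy' i hi))
            rw [fl_ne (ne_of_mem_erase hj).symm] at e4
            simp [fl] at e4
          · simp only [h2, if_false, mul_zero]; positivity
        · simp only [h1, if_false, zero_mul]; positivity
    have t3 : F.card / 2 * c ≤ G.card := le_trans (by nlinarith) t1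
    have t4 : (M * (F.card / 2 * c)) ^ 2 ≤ ((M : ℝ) * G.card) ^ 2 := by gcongr
    have t5 := (t4.trans d2).trans (mul_le_mul_of_nonneg_left
      (d3.trans (add_le_add_left (mul_le_mul_of_nonneg_left t2 hM0) _)) (by positivity))
    rw [sub_le_iff_le_add', div_le_iff₀ (by positivity), pow_add]
    refine le_of_mul_le_mul_right ?_ (mul_pos hc0 hc0)
    nlinarith

end Pool.Agent.H145Z.Foc
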