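import Pool.Agent.H145Z.Foc.A

set_option autoImplicit false
set_option linter.unusedSectionVars false

open Finset

noncomputable section

namespace Pool.Agent.H145Z.Foc

variable {ι : Type} [Fintype ι] [DecidableEq ι]

/-- for pairwise disjoint sets `T j`, each member is determined off one of them -/
def H (s : ℕ) (F : Finset (ι → Bool)) : Prop :=
  ∀ x ∈ F, ∀ T : Fin s → Finset ι, (∀ i j, i ≠ j → Disjoint (T i) (T j)) →
    ∃ j, x ∈ uq F (T j)ᶜ

variable {F : Finset (ι → Bool)}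

lemma mem_uq {S : Finset ι} {x : ι → Bool} :
    x ∈ uq F S ↔ x ∈ F ∧ ∀ y ∈ F, Agree S x y → y = x := mem_filter

lemma compl_le (h : H 2 F) (S : Finset ι) : F.card ≤ (uq F S).card + (uq F Sᶜ).card := by
  refine le_trans (card_le_card fun x hx => ?_) (card_union_le _ _)
  obtain ⟨j, hj⟩ := h x hx ![S, Sᶜ] fun i j hij => by
    fin_cases i <;> fin_cases j <;> simp_all [disjoint_compl_left, disjoint_compl_right]
  fin_cases j
  · exact mem_union_right _ hj
  · exact mem_union_left _ (by simpa using hj)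

lemma av_two (m : ℕ) (hm : m + 2 ≤ Fintype.card ι) (hN : F.card ≤ 2 ^ (m + 2)) :
    (F.card : ℝ) ^ 2 / 2 ^ (m + 4) - F.card / (m + 1) ≤
      F.card - Av m fun S => ((uq F S).card : ℝ) := by
  have h1 : Av m (fun S => (F.card : ℝ) + (uq F S).card * -1) =
      F.card - Av m fun S => ((uq F S).card : ℝ) := by
    rw [Av_add, Av_mul, Av_const (by omega)]; ring
  rw [← h1, Av_Dn (by omega), Av_Dn (by omega), ← Av_const hm (_ - _)]
  refine Av_mono fun S hS => ?_
  have h2 := dist_two F S (by rw [hS]; exact hN)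
  have h3 : Dn (Dn fun S => (F.card : ℝ) + (uq F S).card * -1) S =
      (∑ i ∈ S, ∑ j ∈ S.erase i, ((F.card : ℝ) - (uq F ((S.erase i).erase j)).card)) /
        ((m + 1) * (m + 2)) := by
    rw [Dn, hS, ← div_div, Nat.cast_add, Nat.cast_ofNat, sum_div S _ ((m : ℝ) + 1)]
    refine congrArg (fun t : ℝ => t / ((m : ℝ) + 2)) (sum_congr rfl fun i hi => ?_)
    rw [Dn, card_erase_of_mem hi, hS, sum_congr rfl fun j _ => by
      rw [mul_neg_one, ← sub_eq_add_neg]]
    simp
  rw [h3, le_div_iff₀ (by positivity)]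
  refine le_trans ?_ h2
  rw [hS]
  have h4 : (0 : ℝ) ≤ (F.card : ℝ) ^ 2 / 2 ^ (m + 4) := by positivity
  have h5 : ((m + 2 : ℕ) : ℝ) ^ 2 * F.card ^ 2 / 2 ^ (m + 2 + 2) =
      (m + 2) ^ 2 * ((F.card : ℝ) ^ 2 / 2 ^ (m + 4)) := by push_cast; ring
  have h6 : (F.card : ℝ) / (m + 1) * ((m + 1) * (m + 2)) = (m + 2) * F.card := by field_simp
  rw [h5, sub_mul, h6]
  push_cast
  nlinarith [mul_nonneg h4 (Nat.cast_nonneg (α := ℝ) m)]

lemma base_bound (h : H 2 F) (L : ℕ) (hL : 2 * L + 4 ≤ Fintype.card ι) :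
    (L : ℝ) * (F.card ^ 2 / 16 - 8 * 2 ^ L * 2 ^ Fintype.card ι / Fintype.card ι) ≤
      2 * 2 ^ Fintype.card ι := by
  set n := Fintype.card ι with hn
  have hN : F.card ≤ 2 ^ (n - n / 2 + 1) := by
    obtain ⟨S, -, hS⟩ := exists_subset_card_eq (s := (univ : Finset ι)) (n := n / 2)
      (by rw [card_univ]; omega)
    have h1 := compl_le h S
    have h2 := uq_le F S
    have h3 := uq_le F Sᶜ
    rw [card_compl, hS, ← hn] at h3
    rw [hS] at h2
    have h4 : 2 ^ (n / 2) ≤ 2 ^ (n - n / 2) := Nat.pow_le_pow_right (by norm_num) (by omega)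
    rw [pow_succ]
    omega
  refine le_trans ?_ (kraft F (n / 2 - L) L (by omega))
  rw [← nsmul_eq_mul, ← card_range L, ← sum_const, card_range]
  refine sum_le_sum fun k hk => ?_
  have hk' := mem_range.1 hk
  set m := n - (n / 2 - L + k) with hm
  have h1 := av_two (F := F) m (by omega) (hN.trans (Nat.pow_le_pow_right (by norm_num) (by omega)))
  have h2 : (F.card : ℝ) ≤ Av (n / 2 - L + k) (fun S => ((uq F S).card : ℝ)) +
      Av m fun S => ((uq F S).card : ℝ) := by
    rw [hm, hn, ← Av_compl (by omega), ← Av_add]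
    exact (Av_const (ι := ι) (by omega) (F.card : ℝ)).ge.trans
      (Av_mono fun S _ => by exact_mod_cast compl_le h S)
  have h3 : (F.card : ℝ) * 2 ^ m ≤ 4 * 2 ^ L * 2 ^ n := by
    have : F.card * 2 ^ m ≤ 2 ^ (2 + L + n) := (Nat.mul_le_mul_right _ hN).trans (by
      rw [← pow_add]; exact Nat.pow_le_pow_right (by norm_num) (by omega))
    rw [pow_add, pow_add] at this
    exact_mod_cast this
  have h4 : (n : ℝ) ≤ 2 * (m + 1) := by exact_mod_cast (by omega : n ≤ 2 * (m + 1))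
  have h5 : (0 : ℝ) < n := by exact_mod_cast (by omega : 0 < n)
  have h6 : (F.card : ℝ) / (m + 1) * 2 ^ m ≤ 8 * 2 ^ L * 2 ^ n / n := by
    rw [div_mul_eq_mul_div, div_le_div_iff₀ (by positivity) h5]
    have : (0 : ℝ) ≤ 2 ^ L * 2 ^ n := by positivity
    nlinarith [mul_le_mul h3 h4 h5.le (by positivity)]
  have h7 : (F.card : ℝ) ^ 2 / 2 ^ (m + 4) * 2 ^ m = F.card ^ 2 / 16 := by
    rw [pow_add]; field_simp; norm_num
  have h8 := mul_le_mul_of_nonneg_right (h1.trans (sub_le_iff_le_add.2 h2))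
    (by positivity : (0 : ℝ) ≤ 2 ^ m)
  rw [sub_mul, h7] at h8
  linarith

/-- the bound `b` holds for all families on `n` coordinates -/
def B (s n : ℕ) (b : ℝ) : Prop :=
  ∀ (κ : Type) [Fintype κ] [DecidableEq κ], Fintype.card κ = n →
    ∀ G : Finset (κ → Bool), H s G → (G.card : ℝ) ≤ b

lemma base (ε : ℝ) (hε : 0 < ε) : ∃ n₀, ∀ n ≥ n₀, B 2 n (ε * 2 ^ ((1 : ℝ) * n / 2)) := by
  obtain ⟨L, hL⟩ := exists_nat_gt (64 / ε ^ 2)
  obtain ⟨n₁, hn₁⟩ := exists_nat_gt (256 * 2 ^ L / ε ^ 2)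
  refine ⟨max n₁ (2 * L + 4), fun n hn κ _ _ hκ G hG => ?_⟩
  have h1 := base_bound hG L (by omega)
  rw [hκ] at h1
  have hL0 : (0 : ℝ) < L := lt_trans (by positivity) hL
  have hn2 : (n₁ : ℝ) ≤ n := by exact_mod_cast (by omega : n₁ ≤ n)
  have hn0 : (0 : ℝ) < n := lt_of_lt_of_le (lt_trans (by positivity) hn₁) hn2
  have h2 : ((2 : ℝ) ^ ((1 : ℝ) * n / 2)) ^ 2 = 2 ^ n := by
    rw [← Real.rpow_natCast, ← Real.rpow_mul (by norm_num), ← Real.rpow_natCast]
    congr 1; push_cast; ring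
  refine (pow_le_pow_iff_left₀ (by positivity) (by positivity) two_ne_zero).1 ?_
  rw [mul_pow, h2]
  have hP : (0 : ℝ) < 2 ^ n := by positivity
  rw [div_lt_iff₀ (by positivity)] at hL hn₁
  have h3 : (8 : ℝ) * 2 ^ L * 2 ^ n / n ≤ ε ^ 2 * 2 ^ n / 32 := by
    rw [div_le_div_iff₀ hn0 (by norm_num)]
    nlinarith [mul_le_mul_of_nonneg_right hn2 (sq_nonneg ε)]
  have h4 : (2 : ℝ) * 2 ^ n ≤ L * (ε ^ 2 * 2 ^ n / 32) := by nlinarith
  have h5 := le_of_mul_le_mul_left (h1.trans h4) hL0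
  linarith

lemma step {s n k : ℕ} {b : ℝ} (hk : k ≤ n) (h : B s (n - k) b) :
    B (s + 1) n (2 ^ (n - k) + 2 ^ k * b) := by
  intro κ _ _ hκ G hG
  obtain ⟨T, -, hT⟩ := exists_subset_card_eq (s := (univ : Finset κ)) (n := k)
    (by rw [card_univ]; omega)
  have h1 := uq_le G Tᶜ
  rw [card_compl, hκ, hT] at h1
  have hs : uq G Tᶜ ⊆ G := filter_subset _ _
  have h2 : ((G \ uq G Tᶜ).card : ℝ) ≤ 2 ^ k * b := by
    rw [card_eq_sum_card_fiberwise (f := fun (x : κ → Bool) (i : T) => x i) (t := univ)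
      (by simp), Nat.cast_sum]
    refine (sum_le_card_nsmul _ _ b fun a _ => ?_).trans (by simp [hT])
    set A := (G \ uq G Tᶜ).filter fun x => (fun i : T => x i) = a with hA
    have hag : ∀ x ∈ A, ∀ y ∈ A, ∀ i ∈ T, x i = y i := fun x hx y hy i hi =>
      congrFun ((mem_filter.1 hx).2.trans (mem_filter.1 hy).2.symm) ⟨i, hi⟩
    rw [← card_image_of_injOn (f := fun (x : κ → Bool) (i : {i // i ∉ T}) => x i)
      fun x hx y hy hxy => funext fun i => by
        by_cases hi : i ∈ T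
        · exact hag x hx y hy i hi
        · exact congrFun hxy ⟨i, hi⟩]
    refine h _ (by simp [hκ, hT]) _ fun x' hx' U hU => ?_
    obtain ⟨x, hx, rfl⟩ := mem_image.1 hx'
    have hx1 := mem_sdiff.1 (mem_filter.1 hx).1
    obtain ⟨j, hj⟩ := hG x hx1.1 (Fin.cons T fun j => (U j).map (Function.Embedding.subtype _))
      fun i j hij => by
        have e : ∀ j, Disjoint T ((U j).map (Function.Embedding.subtype _)) := fun j =>
          disjoint_left.2 fun l hl hl' => by
            obtain ⟨l', -, rfl⟩ := mem_map.1 hl'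
            exact l'.2 hl
        induction i using Fin.cases <;> induction j using Fin.cases
        · exact absurd rfl hij
        · simpa using e _
        · simpa using (e _).symm
        · simpa using hU _ _ fun h => hij (by rw [h])
    induction j using Fin.cases with
    | zero => exact absurd hj hx1.2
    | succ j =>
      refine ⟨j, mem_uq.2 ⟨hx', fun y' hy' hxy => ?_⟩⟩
      obtain ⟨y, hy, rfl⟩ := mem_image.1 hy'
      rw [(mem_filter.1 hj).2 y (mem_sdiff.1 (mem_filter.1 hy).1).1 fun i hi => ?_]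
      by_cases hi' : i ∈ T
      · exact hag x hx y hy i hi'
      · exact hxy ⟨i, hi'⟩ (mem_compl.2 fun hh => mem_compl.1 hi (mem_map.2 ⟨_, hh, rfl⟩))
  rw [card_sdiff_of_subset hs, Nat.cast_sub (card_le_card hs)] at h2
  have h3 : ((uq G Tᶜ).card : ℝ) ≤ 2 ^ (n - k) := by exact_mod_cast h1
  linarith

theorem main (s : ℕ) (ε : ℝ) (hε : 0 < ε) :
    ∃ n₀, ∀ n ≥ n₀, B (s + 2) n (ε * 2 ^ (((s : ℝ) + 1) * n / (s + 2))) := by
  induction s generalizing ε with
  | zero => simpa using base ε hε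
  | succ s ih =>
    obtain ⟨c, hc⟩ := pow_unbounded_of_one_lt (4 / ε) (by norm_num : (1 : ℝ) < 2)
    obtain ⟨n₀, h₀⟩ := ih (ε / 2 / 2 ^ c) (by positivity)
    refine ⟨2 * (n₀ + c), fun n hn κ _ _ hκ G hG => ?_⟩
    have hq : n / (s + 3) ≤ n / 2 := Nat.div_le_div_left (by omega) (by norm_num)
    set q := n / (s + 3) with hq'
    have hk : q + c ≤ n := by omega
    refine (step hk (h₀ _ (by omega)) κ hκ G hG).trans ?_
    have q1 : (q : ℝ) * (s + 3) ≤ n := by exact_mod_cast Nat.div_mul_le_self n (s + 3)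
    have q2 : (n : ℝ) ≤ (q + 1) * (s + 3) := by
      have : n ≤ (q + 1) * (s + 3) := by
        have := Nat.lt_div_mul_add (a := n) (b := s + 3) (by omega)
        rw [add_mul, one_mul]; exact this.le
      exact_mod_cast this
    set E : ℝ := (((s + 1 : ℕ) : ℝ) + 1) * n / ((s + 1 : ℕ) + 2) with hE
    have hs : (0 : ℝ) ≤ s := Nat.cast_nonneg _
    have hc0 : (0 : ℝ) ≤ c := Nat.cast_nonneg _
    have hEn : E * (s + 3) = (s + 2) * n := by rw [hE]; push_cast; field_simp; ring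
    have e1 : (2 : ℝ) ^ (n - (q + c)) * 2 ^ c ≤ 2 * 2 ^ E := by
      rw [← pow_add, ← Real.rpow_natCast, mul_comm, ← Real.rpow_add_one (by norm_num)]
      refine Real.rpow_le_rpow_of_exponent_le (by norm_num) ?_
      rw [Nat.cast_add, Nat.cast_sub hk]
      push_cast
      nlinarith
    have e2 : (2 : ℝ) ^ (q + c) * 2 ^ (((s : ℝ) + 1) * (n - (q + c) : ℕ) / (s + 2)) ≤
        2 ^ E * 2 ^ c := by
      rw [← Real.rpow_natCast, ← Real.rpow_natCast, ← Real.rpow_add (by norm_num),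
        ← Real.rpow_add (by norm_num)]
      refine Real.rpow_le_rpow_of_exponent_le (by norm_num) ?_
      rw [Nat.cast_sub hk, ← le_sub_iff_add_le', div_le_iff₀ (by positivity)]
      push_cast
      refine le_of_mul_le_mul_right ?_ (by positivity : (0 : ℝ) < s + 3)
      have : (E + c - (q + c)) * (s + 2) * (s + 3) = (E * (s + 3)) * (s + 2) -
        q * (s + 2) * (s + 3) := by ring
      rw [this, hEn]
      nlinarith [mul_nonneg hc0 hs, mul_nonneg (mul_nonneg hc0 hs) hs]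
    have hP : (0 : ℝ) < 2 ^ E := by positivity
    have hC : (0 : ℝ) < 2 ^ c := by positivity
    rw [div_lt_iff₀ hε] at hc
    have e3 : (2 : ℝ) ^ (n - (q + c)) ≤ ε / 2 * 2 ^ E := by
      refine le_of_mul_le_mul_right (e1.trans ?_) hC
      nlinarith
    have e4 : (2 : ℝ) ^ (q + c) * (ε / 2 / 2 ^ c *
        2 ^ (((s : ℝ) + 1) * (n - (q + c) : ℕ) / (s + 2))) ≤ ε / 2 * 2 ^ E := by
      rw [mul_left_comm]
      refine (mul_le_mul_of_nonneg_left e2 (by positivity)).trans (le_of_eq ?_)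
      field_simp
    linarith

end Pool.Agent.H145Z.Foc
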